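import Pool.Agent.J6H84.DG.Stm
import Pool.Agent.Y347.VL.Value

/-!
# Project DG (helper84), module EXG (helper61): the linear sets
-/

set_option autoImplicit false

namespace Pool.Agent.J6H61.DG.ExG

open Finset Pool.Agent.H430R2.PermCubes Pool.Agent.J6H84.LM Pool.Agent.J6H84.TS Pool.Agent.J6H84.DG

/-- the permutation `z ↦ c z + w` of a field -/
private def aff {K : Type} [Field K] (c : Kˣ) (w : K) : Equiv.Perm K where
  toFun z := c * z + w
  invFun z := (c⁻¹ : Kˣ) * (z - w)
  left_inv z := by simp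
  right_inv z := by simp

/-- the permutation of the cells -/
private def gg {K : Type} [Field K] {m q : ℕ} (t : Fin m → (Fin q ≃ K)) (c : Kˣ) (v : Fin m → K) :
    Equiv.Perm (Fin m → Fin q) :=
  Equiv.piCongrRight fun i => (t i).trans ((aff c (v i)).trans (t i).symm)

private theorem gg_apply {K : Type} [Field K] {m q : ℕ} (t : Fin m → (Fin q ≃ K)) (c : Kˣ)
    (v : Fin m → K) (x : Fin m → Fin q) (i : Fin m) :
    t i (gg t c v x i) = c * t i (x i) + v i := by
  change t i ((t i).symm (c * t i (x i) + v i)) = _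
  rw [Equiv.apply_symm_apply]

/-- the group -/
private def grp {K : Type} [Field K] {m q : ℕ} (t : Fin m → (Fin q ≃ K)) :
    Subgroup (Equiv.Perm (Fin m → Fin q)) where
  carrier := {σ | ∃ (c : Kˣ) (v : Fin m → K), ∀ x i, t i (σ x i) = c * t i (x i) + v i}
  mul_mem' := by
    rintro σ σ' ⟨c, v, h⟩ ⟨c', v', h'⟩
    refine ⟨c * c', fun i => c * v' i + v i, fun x i => ?_⟩
    rw [Equiv.Perm.mul_apply, h, h']
    push_cast
    ring
  one_mem' := ⟨1, fun _ => 0, fun x i => by simp⟩
  inv_mem' := by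
    rintro σ ⟨c, v, h⟩
    refine ⟨c⁻¹, fun i => - ((c⁻¹ : Kˣ) * v i), fun x i => ?_⟩
    have h1 := h (σ⁻¹ x) i
    have h0 : σ (σ⁻¹ x) = x := σ.apply_symm_apply x
    rw [h0] at h1
    change t i (σ⁻¹ x i) = (c⁻¹ : Kˣ) * t i (x i) + - ((c⁻¹ : Kˣ) * v i)
    rw [h1]
    have h2 : ((c⁻¹ : Kˣ) : K) * (c : K) = 1 := Units.inv_mul c
    linear_combination (-(t i (σ⁻¹ x i))) * h2

theorem main : Pool.Agent.J6H84.DG.S_ExG := by
  classical
  intro K _ _ m q hq hm
  have hq2 : 2 ≤ q := by
    rw [← hq]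
    exact Fintype.one_lt_card
  obtain ⟨C, hC, t, s, a, h⟩ := (Pool.Agent.Y347.VL.mem_sizes_iff (R := K) (m := m)
    (k := Pool.Agent.Y347.VL.value m q) (n := q) (by rw [Nat.card_eq_fintype_card, hq])).2
    (Pool.Agent.Y347.VL.unitSet_iff_linOver.2 (Pool.Agent.Y347.VL.exists_value hm hq2 hq.ge))
  refine ⟨C, hC, grp t, ?_, ?_⟩
  · rintro σ ⟨c, v, hσ⟩ j
    refine ⟨(s j).trans ((aff c (∑ i, a j i * v i)).trans (s j).symm), fun x => ?_⟩
    apply (s j).injective
    change s j (C j (σ x)) = s j ((s j).symm (c * s j (C j x) + ∑ i, a j i * v i))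
    rw [Equiv.apply_symm_apply, h, h, Finset.mul_sum, ← Finset.sum_add_distrib]
    refine Finset.sum_congr rfl fun i _ => ?_
    rw [hσ]
    ring
  · have hbij : Function.Bijective (fun z : Kˣ × (Fin m → K) =>
        (⟨gg t z.1 z.2, z.1, z.2, fun x i => gg_apply t z.1 z.2 x i⟩ : grp t)) := by
      constructor
      · rintro ⟨c, v⟩ ⟨c', v'⟩ hz
        have h1 : gg t c v = gg t c' v' := congrArg Subtype.val hz
        have h2 : ∀ (x : Fin m → Fin q) (i : Fin m),
            (c : K) * t i (x i) + v i = c' * t i (x i) + v' i := by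
          intro x i
          rw [← gg_apply t c v x i, ← gg_apply t c' v' x i, h1]
        have h3 : v = v' := by
          funext i
          have h4 := h2 (fun l => (t l).symm 0) i
          simpa using h4
        have h5 : c = c' := by
          have h4 := h2 (fun l => (t l).symm 1) ⟨0, by omega⟩
          rw [h3] at h4
          simp only [Equiv.apply_symm_apply, mul_one, add_left_inj] at h4
          exact Units.ext h4
        rw [h3, h5]
      · rintro ⟨σ, c, v, hσ⟩
        refine ⟨(c, v), Subtype.ext (Equiv.ext fun x => funext fun i => (t i).injective ?_)⟩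
        exact (gg_apply t c v x i).trans (hσ x i).symm
    rw [← Nat.card_eq_of_bijective _ hbij, Nat.card_prod, Nat.card_units, Nat.card_fun,
      Nat.card_eq_fintype_card, Nat.card_eq_fintype_card, hq, Fintype.card_fin, mul_comm]

end Pool.Agent.J6H61.DG.ExG
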